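import Pool.Agent.K1H73.SQB.Stm3

/-! Piece EXM3 of the project SQB (after K1H80/SQB/Exm2.lean). -/

set_option autoImplicit false

namespace Pool.Agent.K1H11.SQB

open Finset Pool.Agent.Y862.SQ Pool.Agent.Y681.SQ Pool.Agent.K1H73.SQB

lemma qc_mod {k : ℕ} (q : ℕ) (a s : Fin k → ℕ) (G : Fin k → Finset ℕ) (p n : ℕ) :
    Qc q a s G p (n % p) ↔ Qc q a s G p n := by
  unfold Qc
  apply exists_congr
  intro i
  apply exists_congr
  intro h
  apply and_congr_right
  intro _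
  have h2 : ((n % p) + s i) ^ 2 + h ≡ (n + s i) ^ 2 + h [MOD p] :=
    Nat.ModEq.add_right _ ((Nat.ModEq.add_right _ (Nat.mod_modEq n p)).pow 2)
  have h3 : (((n % p) + s i) ^ 2 + h) % p = ((n + s i) ^ 2 + h) % p := h2
  rw [h2.dvd_iff (dvd_refl p), h3]

lemma qe_mod (P : Finset (ℕ × ℕ)) (p n : ℕ) :
    (∃ z ∈ P, p ∣ ((n % p) + z.1) ^ 2 + z.2) ↔ ∃ z ∈ P, p ∣ (n + z.1) ^ 2 + z.2 := by
  apply exists_congr
  intro z
  apply and_congr_right
  intro _
  have h2 : ((n % p) + z.1) ^ 2 + z.2 ≡ (n + z.1) ^ 2 + z.2 [MOD p] :=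
    Nat.ModEq.add_right _ ((Nat.ModEq.add_right _ (Nat.mod_modEq n p)).pow 2)
  rw [h2.dvd_iff (dvd_refl p)]

open Classical in
lemma exactQ (Q : ℕ → ℕ → Prop) (hQ : ∀ p n, Q p (n % p) ↔ Q p n) (w : ℕ) :
    (((range (Mw w)).filter (fun n => ∀ p ∈ pr w, ¬ Q p n)).card : ℝ) =
      Mw w * ∏ p ∈ pr w, (1 - (((range p).filter (fun r => Q p r)).card : ℝ) / p) := by
  have h1 := crt (fun p n => ¬ Q p n) (pr w) (fun p hp => (mem_pr.1 hp).2) (by
    intro p _ n
    exact not_congr (hQ p n))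
  have h2 : (((range (Mw w)).filter (fun n => ∀ p ∈ pr w, ¬ Q p n)).card : ℝ) =
      ∏ p ∈ pr w, (((range p).filter (fun n => ¬ Q p n)).card : ℝ) := by
    unfold Mw
    have h3 : ((((range (∏ p ∈ pr w, p)).filter (fun n => ∀ p ∈ pr w, ¬ Q p n)).card : ℕ) : ℝ)
      = ((∏ p ∈ pr w, ((range p).filter (fun n => ¬ Q p n)).card : ℕ) : ℝ) := by
      rw [← h1]
    rw [h3, Nat.cast_prod]
  rw [h2]
  unfold Mw
  rw [Nat.cast_prod, ← Finset.prod_mul_distrib]
  apply Finset.prod_congr rfl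
  intro p hp
  have hp0 : (p : ℝ) ≠ 0 := by exact_mod_cast (mem_pr.1 hp).2.ne_zero
  rw [card_compl (fun n => Q p n) p]
  field_simp

lemma gd_iff (P : Finset (ℕ × ℕ)) (w n : ℕ) :
    gd P w n ↔ ∀ p ∈ pr w, ¬ ∃ z ∈ P, p ∣ (n + z.1) ^ 2 + z.2 := by
  unfold gd
  constructor
  · rintro h p hp ⟨z, hz, hd⟩
    exact h z hz p hp hd
  · intro h z hz p hp hd
    exact h p hp ⟨z, hz, hd⟩

open Classical in
lemma filter_bxP {k : ℕ} (q w n : ℕ) (a s κ S U : Fin k → ℕ) (P : Finset (ℕ × ℕ))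
    (hg : gd P w n) :
    (bxP P κ s S U).filter (fun G => ∀ p ∈ pr w, ¬ Qp q a s P G p n) =
      Fintype.piFinset (fun i => powersetCard (κ i)
        ((blk P (s i) (S i) (U i)).filter (fun h => ok q (a i) w ((n + s i) ^ 2 + h)))) := by
  ext G
  unfold bxP
  rw [mem_filter, Fintype.mem_piFinset, Fintype.mem_piFinset]
  constructor
  · rintro ⟨h1, h2⟩ i
    have h3 := h1 i
    rw [mem_powersetCard] at h3 ⊢
    refine ⟨fun h hh => mem_filter.2 ⟨h3.1 hh, fun p hp => ?_⟩, h3.2⟩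
    by_contra hcon
    exact h2 p hp (Or.inr ⟨i, h, hh, hcon⟩)
  · intro h1
    refine ⟨fun i => ?_, ?_⟩
    · have h3 := h1 i
      rw [mem_powersetCard] at h3 ⊢
      exact ⟨h3.1.trans (filter_subset _ _), h3.2⟩
    · rintro p hp (hz | ⟨i, h, hh, hcon⟩)
      · exact (gd_iff P w n).1 hg p hp hz
      · have h3 := h1 i
        rw [mem_powersetCard] at h3
        exact hcon ((mem_filter.1 (h3.1 hh)).2 p hp)

theorem t_EXM3 : S_EXM3 := by
  classical
  intro k q w a s κ S U P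
  constructor
  · have h1 := exactQ (fun p n => ∃ z ∈ P, p ∣ (n + z.1) ^ 2 + z.2) (qe_mod P) w
    refine Eq.trans ?_ (h1.symm.trans ?_)
    · congr 1
      unfold VP r2
      refine prod_congr rfl fun p _ => ?_
      congr!
    · congr 2
      ext n
      simp only [mem_filter, gd_iff]
  rw [Finset.mul_sum]
  have h1 : ∀ G ∈ bxP P κ s S U, (Mw w : ℝ) * DP q a s P G w =
      ∑ n ∈ range (Mw w), if (∀ p ∈ pr w, ¬ Qp q a s P G p n) then (1 : ℝ) else 0 := by
    intro G _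
    have h2 := exactQ (fun p n => Qp q a s P G p n) (fun p n => by
      unfold Qp
      exact or_congr (qe_mod P p n) (qc_mod q a s G p n)) w
    rw [Finset.sum_ite, Finset.sum_const_zero, add_zero, Finset.sum_const, nsmul_eq_mul, mul_one,
      h2]
    unfold DP rP
    rfl
  rw [Finset.sum_congr rfl h1, Finset.sum_comm, Finset.sum_filter]
  apply Finset.sum_congr rfl
  intro n _
  rw [Finset.sum_ite, Finset.sum_const_zero, add_zero, Finset.sum_const, nsmul_eq_mul, mul_one]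
  by_cases hg : gd P w n
  · rw [if_pos hg, filter_bxP q w n a s κ S U P hg, Fintype.card_piFinset, Nat.cast_prod]
    apply Finset.prod_congr rfl
    intro i _
    rw [card_powersetCard]
    unfold NP
    rfl
  · rw [if_neg hg]
    have h2 : (bxP P κ s S U).filter (fun G => ∀ p ∈ pr w, ¬ Qp q a s P G p n) = ∅ := by
      rw [filter_eq_empty_iff]
      intro G _ hc
      exact hg ((gd_iff P w n).2 fun p hp hz => hc p hp (Or.inl hz))
    rw [h2, card_empty, Nat.cast_zero]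

end Pool.Agent.K1H11.SQB
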